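import Pool.Agent.H.MP_c4e2dd_an.A
namespace Pool.Agent.H.MP_c4e2dd_an
open MeasureTheory Metric Pool.Agent.H.MP_ceba03_an ComplexConjugate Filter Topology
open Pool.Agent.H.MP_e9aa5f_an Complex Real

lemma St.cs {x : ℂ} (h : St x) : 0 ≤ Real.cos x.im ∧ 0 ≤ Real.sin x.im :=
  ⟨cos_nonneg_of_mem_Icc ⟨by linarith [h.1, pi_pos], h.2⟩,
    sin_nonneg_of_nonneg_of_le_pi h.1 (by linarith [h.2, pi_pos])⟩

lemma St.re {x : ℂ} (h : St x) : 0 ≤ (cexp x).re := by
  rw [exp_re]; exact mul_nonneg (Real.exp_pos _).le h.cs.1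

lemma St.re' {x : ℂ} (h : St x) : 0 ≤ (cexp (-x)).re := by
  rw [exp_re, neg_im, Real.cos_neg]; exact mul_nonneg (Real.exp_pos _).le h.cs.1

lemma St.im' {x : ℂ} (h : St x) : 0 ≤ -(cexp (-x)).im := by
  rw [exp_im, neg_im, Real.sin_neg, mul_neg, neg_neg]; exact mul_nonneg (Real.exp_pos _).le h.cs.2

noncomputable def Ap (n : ℕ) (x : ℂ) : ℂ := (cexp (-x) + (1 / ((n : ℝ) + 1) : ℝ))⁻¹

lemma Ap_tend (x : ℂ) : Tendsto (fun n => Ap n x) atTop (𝓝 (cexp x)) := by
  have := (((continuous_ofReal.tendsto 0).comp tendsto_one_div_add_atTop_nhds_zero_nat).const_add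
    (cexp (-x))).inv₀ (by simp)
  rw [ofReal_zero, add_zero, Complex.exp_neg, inv_inv, ← Complex.exp_neg] at this
  exact this

lemma Ap_spec (n : ℕ) {x : ℂ} (h : St x) : (DifferentiableAt ℂ (Ap n) x ∧ ‖Ap n x‖ ≤ n + 1) ∧
    ‖Ap n x‖ ≤ ‖cexp x‖ ∧ ‖Ap n x‖ ≤ (Ap n x).re + (Ap n x).im := by
  unfold Ap
  have h0 : 0 < 1 / ((n : ℝ) + 1) := by positivity
  rw [← one_div_one_div ((n : ℝ) + 1), one_div_one_div (1 / _)]
  generalize 1 / ((n : ℝ) + 1) = ε at *
  have h1 := h.re'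
  have h2 : ε ≤ ‖cexp (-x) + ε‖ := le_trans (by simpa using h1) (re_le_norm _)
  refine ⟨⟨DifferentiableAt.inv (by fun_prop) (norm_pos_iff.1 (h0.trans_le h2)), ?_⟩, ?_, ?_⟩
  · rw [norm_inv, one_div]; exact inv_anti₀ h0 h2
  · rw [norm_inv, ← inv_inv (cexp x), ← Complex.exp_neg, norm_inv]
    refine inv_anti₀ (norm_pos_iff.2 (Complex.exp_ne_zero _)) 
      (le_of_sq_le_sq ?_ (norm_nonneg _))
    simp only [Complex.sq_norm, normSq_apply, add_re, add_im, ofReal_re, ofReal_im, add_zero]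
    nlinarith
  · refine (norm_le_abs_re_add_abs_im _).trans (le_of_eq ?_)
    rw [abs_of_nonneg, abs_of_nonneg]
    · rw [inv_im]; exact div_nonneg (by simpa using h.im') (normSq_nonneg _)
    · rw [inv_re]; exact div_nonneg (by simpa using add_nonneg h1 h0.le) (normSq_nonneg _)

lemma outer : Integrable (fun t => (cexp (lam (e t))).re) μ ∧ ∀ z ∈ ball (0 : ℂ) 1,
    ∫ t, (e t + z) / (e t - z) * (cexp (lam (e t))).re ∂μ =
      cexp (lam z) - (cexp (lam 0)).im * I := by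
  have h1 := fun n => strip fun x hx => (Ap_spec n hx).1
  have st := fun t => lam_st (sphere_subset_closedBall (e_mem t))
  have h0 : (0 : ℂ) ∈ ball (0 : ℂ) 1 := by simp
  have h2 : ∀ n, ∫ t, ‖Ap n (lam (e t))‖ ∂μ ≤ 2 * ‖cexp (lam 0)‖ := fun n => by
    have b := (h1 n).1.1.int
    have h2 := (h1 n).val h0
    simp only [Pc, kz, zero_mul, sub_zero, inv_one, mul_one] at h2
    refine (integral_mono b.norm (b.re.add b.im) fun t => (Ap_spec n (st t)).2.2).trans ?_
    rw [integral_add' b.re b.im, integral_re b, integral_im b, h2]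
    have := (Ap_spec n (lam_st (ball_subset_closedBall h0))).2.1
    linarith [RCLike.re_le_norm (Ap n (lam 0)), RCLike.im_le_norm (Ap n (lam 0))]
  have h3 : Integrable (fun t => cexp (lam (e t))) μ := by
    have h3 := Eventually.of_forall (f := ae μ) fun t => Ap_tend (lam (e t))
    refine memLp_one_iff_integrable.1 ⟨aestronglyMeasurable_of_tendsto_ae _
      (fun n => (h1 n).1.1.1) h3, (Lp.eLpNorm_le_of_ae_tendsto (Eventually.of_forall fun n => ?_)
      (fun n => (h1 n).1.1.1) h3).trans_lt (ENNReal.ofReal_lt_top (r := 2 * ‖cexp (lam 0)‖))⟩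
    rw [eLpNorm_one_eq_lintegral_enorm, ← ofReal_integral_norm_eq_lintegral_enorm (h1 n).1.1.int]
    exact ENNReal.ofReal_le_ofReal (h2 n)
  refine ⟨h3.re, fun z hz => ?_⟩
  have h4 : Continuous fun t => (e t + z) / (e t - z) := by
    have := e_cont
    refine Continuous.div (by fun_prop) (by fun_prop) fun t h => ?_
    rw [← sub_eq_zero.1 h, mem_ball_zero_iff, e_norm] at hz
    exact hz.false
  obtain ⟨C, h5⟩ := bd_cont h4
  have h6 := tendsto_integral_of_dominated_convergence (μ := μ)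
    (F := fun n t => (e t + z) / (e t - z) * (Ap n (lam (e t))).re)
    (f := fun t => (e t + z) / (e t - z) * (cexp (lam (e t))).re) _
    (fun n => h5.1.mul (h1 n).1.1.int.re.ofReal.1) (h3.norm.const_mul C) (fun n => by
      filter_upwards [h5.2] with t ht
      rw [norm_mul, Complex.norm_real]
      exact mul_le_mul ht ((abs_re_le_norm _).trans (Ap_spec n (st t)).2.1) (norm_nonneg _)
        h5.nonneg)
    (Eventually.of_forall fun t => ((continuous_ofReal.tendsto _).comp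
      ((continuous_re.tendsto _).comp (Ap_tend _))).const_mul _)
  simp only [fun n => (h1 n).schwarz hz] at h6
  exact tendsto_nhds_unique h6 ((Ap_tend _).sub (((continuous_ofReal.tendsto _).comp
      ((continuous_im.tendsto _).comp (Ap_tend _))).mul_const _))

noncomputable def Th (x : ℂ) : ℂ := cexp (-cexp x)
noncomputable def Hh (x : ℂ) : ℂ := cexp (-(2 * I * x) - π / 2)
noncomputable def W (M : ℝ) (x : ℂ) : ℂ := cexp (4 * M * I * x + M * π - (M * π) ^ 2 * cexp (-x))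

lemma Th_norm (x : ℂ) : ‖Th x‖ = rexp (-(cexp x).re) := by rw [Th, Complex.norm_exp, neg_re]

lemma Hh_norm (x : ℂ) : ‖Hh x‖ = rexp (2 * x.im - π / 2) := by simp [Hh, Complex.norm_exp]

lemma W_norm (M : ℝ) (x : ℂ) :
    ‖W M x‖ = rexp (M * π - 4 * M * x.im - (M * π) ^ 2 * (cexp (-x)).re) := by
  rw [W, Complex.norm_exp, ← ofReal_mul, ← ofReal_pow, sub_re, re_ofReal_mul]
  congr 1; simp; ring

lemma mp_Th : MP (fun w => Th (lam w)) 1 := strip fun x hx =>
  ⟨by unfold Th; fun_prop, by rw [Th_norm, Real.exp_le_one_iff, neg_nonpos]; exact hx.re⟩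

lemma mp_Hh : MP (fun w => Hh (lam w)) (rexp (π / 2)) := strip fun x hx =>
  ⟨by unfold Hh; fun_prop, by rw [Hh_norm, Real.exp_le_exp]; linarith [hx.2]⟩

lemma W_le {M : ℝ} (hM : 0 ≤ M) {x : ℂ} (hx : St x) : ‖W M x‖ ≤ rexp (M * π) := by
  rw [W_norm, Real.exp_le_exp]
  have := hx.1
  have := hx.re'
  have : 0 ≤ 4 * M * x.im + (M * π) ^ 2 * (cexp (-x)).re := by positivity
  linarith

lemma WT {M : ℝ} {x : ℂ} (h : x.im = 0 ∨ x.im = π / 2) : ‖W M x * Th x‖ ≤ rexp (-(M * π)) := by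
  rw [norm_mul, W_norm, Th_norm, ← Real.exp_add, Real.exp_le_exp, exp_re, exp_re]
  rcases h with h | h
  · simp only [h, neg_im, neg_zero, Real.cos_zero, mul_one, neg_re, Real.exp_neg, mul_zero]
    have := Real.exp_pos x.re
    generalize rexp x.re = a at *
    have h1 : 0 ≤ (a - M * π) ^ 2 * a⁻¹ := by positivity
    have h2 : (a - M * π) ^ 2 * a⁻¹ = a - 2 * (M * π) + (M * π) ^ 2 * a⁻¹ := by field_simp; ring
    linarith
  · simp only [h, neg_im, Real.cos_neg, Real.cos_pi_div_two]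
    linarith

lemma HI.sub {u g : T → ℂ} {B C : ℝ} (hu : HI u B) (hg : HI g C) :
    HI (fun t => u t - g t) (B + C) :=
  ⟨hu.1.sub hg.1, fun n hn => by rw [fc_sub hu.1.int hg.1.int, hu.2 n hn, hg.2 n hn, sub_self]⟩

lemma no_corona {k v : T → ℂ} {K C : ℝ} (hk : HI k K) (hv : Bd v C)
    (h : ∀ᵐ t ∂μ, 1 - (1 - Hh (lam (e t))) * k t = Th (lam (e t)) * v t) : False := by
  have hC := hv.nonneg
  set M := C + 1 with hM
  have m1 := strip (Φ := W M) fun x hx => ⟨by unfold W; fun_prop, W_le (by linarith) hx⟩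
  have m2 := strip (Φ := fun x => W M x * (1 - Hh x)) (B := rexp (M * π) * (1 + rexp (π / 2)))
    fun x hx => ⟨by unfold W Hh; fun_prop, by
      rw [norm_mul]
      refine mul_le_mul (W_le (by linarith) hx) ((norm_sub_le _ _).trans ?_) (norm_nonneg _)
        (Real.exp_pos _).le
      rw [norm_one, Hh_norm]; gcongr; linarith [hx.2]⟩
  obtain ⟨n, hn⟩ := exists_nat_ge ((M * π) ^ 2)
  obtain ⟨z, hz, h1⟩ := lam_surj (n * π)
  have h2 := HI.sub m1.1 (m2.1.mul hk)
  have h3 := pc_HI (B := rexp (-(M * π)) * C) ⟨⟨h2.1.1, by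
    filter_upwards [h, lam_bd, hv.2] with t h3 h4 h5
    rw [mul_assoc, ← mul_one_sub, h3, ← mul_assoc, norm_mul]
    exact mul_le_mul (WT h4) h5 (norm_nonneg _) (Real.exp_pos _).le⟩, h2.2⟩ hz
  have h4 := pc_add h2.1 (m2.1.mul hk).1 hz
  have h5 : Hh (lam z) = 1 := by
    rw [h1, Hh, ← exp_int_mul_two_pi_mul_I (-n)]
    congr 1; push_cast; linear_combination (-π / 2 : ℂ) * I_mul_I
  simp only [sub_add_cancel] at h4
  rw [m1.val hz, m2.2 _ _ hk z hz] at h4
  simp only [h5, sub_self, mul_zero, zero_mul, add_zero] at h3 h4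
  rw [← h4, W_norm, h1, exp_re] at h3
  simp only [add_im, ofReal_im, mul_I_im, div_ofNat_re, ofReal_re, zero_add, neg_re, add_re,
    mul_I_re, div_ofNat_im, zero_div, neg_zero, add_zero, neg_im] at h3
  have h6 : (M * π) ^ 2 * (rexp (-(n * π)) * Real.cos (-(π / 4))) ≤ 1 := by
    have h6 := Real.add_one_le_exp (n * π)
    have h7 : (n : ℝ) * 3 ≤ n * π := by gcongr; exact pi_gt_three.le
    calc _ ≤ rexp (n * π) * (rexp (-(n * π)) * 1) := by
          gcongr
          · exact mul_nonneg (Real.exp_pos _).le (cos_nonneg_of_mem_Icc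
              ⟨by linarith [pi_pos], by linarith [pi_pos]⟩)
          · linarith [sq_nonneg (M * π)]
          · exact cos_le_one _
      _ = 1 := by simp [← Real.exp_add]
  have h7 : rexp (-(M * π)) * rexp C ≤ rexp (-(M * π)) * C := by
    refine le_trans ?_ h3
    rw [← Real.exp_add, Real.exp_le_exp]
    nlinarith [pi_gt_three]
  have := le_of_mul_le_mul_left h7 (Real.exp_pos _)
  linarith [Real.add_one_le_exp C]

end Pool.Agent.H.MP_c4e2dd_an
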