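import Pool.Agent.H.MP_e9aa5f_an.F
namespace Pool.Agent.H.MP_c4e2dd_an
open MeasureTheory Metric Pool.Agent.H.MP_ceba03_an ComplexConjugate Filter Topology
open Pool.Agent.H.MP_e9aa5f_an Complex Real

lemma hh_an {G : ℂ → ℂ} (h : An G) : ∃ B, HI (fun t => G (e t)) B :=
  let ⟨B, hB⟩ := (isCompact_sphere (0 : ℂ) 1).exists_bound_of_continuousOn h.co
  ⟨B, hi_an h hB⟩

lemma kz_eq {z : ℂ} (hz : z ∈ ball (0 : ℂ) 1) (t : T) : (e t - z) * kz z t = e t := by
  have h1 := kz_ne hz t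
  have h2 := cj (e_mem t)
  rw [kz, ← div_eq_mul_inv, div_eq_iff h1]
  linear_combination z * h2

lemma pc_mul_an {G : ℂ → ℂ} (h : An G) {k : T → ℂ} {C : ℝ} (hk : HI k C) {z : ℂ}
    (hz : z ∈ ball (0 : ℂ) 1) : Pc (fun t => G (e t) * k t) z = G z * Pc k z := by
  obtain ⟨B, h1⟩ := hh_an (h.dslope (ball_subset_closedBall hz))
  obtain ⟨B', h2⟩ := hh_an h
  obtain ⟨_, h3⟩ := bd_cont (kz_cont hz)
  have h4 := (h1.mul hk).2 (-1) (by simp)
  rw [← sub_eq_zero, Pc, Pc, ← integral_const_mul,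
    ← integral_sub ((h2.mul hk).1.mul h3).int ((hk.1.mul h3).int.const_mul _), ← h4, fourierCoeff]
  congr 1; funext t
  have h5 := sub_smul_dslope G z (e t)
  have h6 := kz_eq hz t
  rw [smul_eq_mul] at h5 ⊢
  change _ = e t * _
  linear_combination (-k t * kz z t) * h5 + (dslope G z (e t) * k t) * h6

def MP (G : ℂ → ℂ) (B : ℝ) : Prop := HI (fun t => G (e t)) B ∧ ∀ k C, HI k C →
  ∀ z ∈ ball (0 : ℂ) 1, Pc (fun t => G (e t) * k t) z = G z * Pc k z

lemma rad {G : ℂ → ℂ} {B : ℝ} (h : DifferentiableOn ℂ G (ball 0 1))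
    (hB : ∀ z ∈ ball (0 : ℂ) 1, ‖G z‖ ≤ B) (hc : ∀ᵐ t ∂μ, ContinuousAt G (e t)) : MP G B := by
  let r : ℕ → ℝ := fun n => n / (n + 1)
  have r1 : Tendsto (fun n => (r n : ℂ)) atTop (𝓝 1) := by
    exact (continuous_ofReal.tendsto 1).comp (tendsto_natCast_div_add_atTop (1 : ℝ))
  have r2 : ∀ n, ∀ w ∈ closedBall (0 : ℂ) 1, (r n : ℂ) * w ∈ ball (0 : ℂ) 1 := fun n w hw => by
    rw [mem_ball_zero_iff, norm_mul, Complex.norm_real, Real.norm_of_nonneg (by positivity)]
    exact mul_lt_one_of_nonneg_of_lt_one_left (by positivity)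
      ((div_lt_one (by positivity)).2 (lt_add_one _)) (mem_closedBall_zero_iff.1 hw)
  have h1 : ∀ n, An fun w => G (r n * w) := fun n w hw =>
    (h.analyticOnNhd isOpen_ball _ (r2 n w hw)).comp (f := fun w => (r n : ℂ) * w) (by fun_prop)
  have h2 : ∀ n, HI (fun t => G (r n * e t)) B := fun n =>
    hi_an (h1 n) fun w hw => hB _ (r2 n w (sphere_subset_closedBall hw))
  have h0 : ∀ w, ContinuousAt G w → Tendsto (fun n => G (r n * w)) atTop (𝓝 (G w)) := fun w hw =>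
    hw.tendsto.comp (by simpa using r1.mul_const w)
  have h3 : ∀ᵐ t ∂μ, Tendsto (fun n => G (r n * e t)) atTop (𝓝 (G (e t))) :=
    hc.mono fun t => h0 _
  have h4 : ∀ ψ C, Bd ψ C → Tendsto (fun n => ∫ t, G (r n * e t) * ψ t ∂μ) atTop
      (𝓝 (∫ t, G (e t) * ψ t ∂μ)) := fun ψ C hψ =>
    tendsto_integral_of_dominated_convergence _ (fun n => ((h2 n).1.mul hψ).1)
      (integrable_const _) (fun n => ((h2 n).1.mul hψ).2) (h3.mono fun t ht => ht.mul_const _)
  refine ⟨⟨⟨aestronglyMeasurable_of_tendsto_ae _ (fun n => (h2 n).1.1) h3, ?_⟩, fun n hn => ?_⟩,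
    fun k C hk z hz => ?_⟩
  · filter_upwards [h3] with t ht
    exact le_of_tendsto' ht.norm fun n => hB _ (r2 n _ (sphere_subset_closedBall (e_mem t)))
  · have h5 := h4 _ _ (bd_four (-n))
    have h6 := fun m => (h2 m).2 n hn
    simp only [fourierCoeff, smul_eq_mul, mul_comm (fourier (-n) _)] at h6 ⊢
    simp only [h6, tendsto_const_nhds_iff] at h5
    exact h5.symm
  · obtain ⟨_, h5⟩ := bd_cont (kz_cont hz)
    have h6 := h4 _ _ (hk.1.mul h5)
    have h7 := fun n => pc_mul_an (h1 n) hk hz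
    simp only [Pc, mul_assoc] at h7 ⊢
    simp only [h7] at h6
    exact tendsto_nhds_unique h6 ((h0 z (h.continuousOn.continuousAt
      (isOpen_ball.mem_nhds hz))).mul_const _)

lemma one_hi : HI (fun _ => 1) 1 := ⟨by simpa using bd_const 1, fun n hn => fc_one hn.ne⟩

lemma MP.val {G : ℂ → ℂ} {B : ℝ} (h : MP G B) {z : ℂ} (hz : z ∈ ball (0 : ℂ) 1) :
    Pc (fun t => G (e t)) z = G z := by
  simpa [pc_an (G := fun _ => 1) analyticOnNhd_const hz] using h.2 _ _ one_hi z hz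

lemma MP.schwarz {G : ℂ → ℂ} {B : ℝ} (h : MP G B) {z : ℂ} (hz : z ∈ ball (0 : ℂ) 1) :
    ∫ t, (e t + z) / (e t - z) * (G (e t)).re ∂μ = G z - (G 0).im * I := by
  have h0 : (0 : ℂ) ∈ ball (0 : ℂ) 1 := by simp
  have h1 : An fun w => (1 - conj z * w)⁻¹ := fun w hw => by
    refine AnalyticAt.inv (by fun_prop) fun h1 => ?_
    have := congrArg norm (sub_eq_zero.1 h1)
    rw [norm_mul, Complex.norm_conj, norm_one] at this
    exact (mul_lt_one_of_nonneg_of_lt_one_left (norm_nonneg _) (mem_ball_zero_iff.1 hz)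
      (mem_closedBall_zero_iff.1 hw)).ne' this
  obtain ⟨C, h2⟩ := hh_an h1
  obtain ⟨_, h3⟩ := bd_cont (kz_cont hz)
  have h4 := congrArg conj (h.2 _ _ h2 0 h0)
  rw [pc_an h1 h0] at h4
  have h5 := h.val hz
  have h6 := h.val h0
  have h7 := congrArg conj h6
  have b := h.1.1
  have b' : Bd (fun t => conj (G (e t))) B :=
    ⟨continuous_conj.comp_aestronglyMeasurable b.1, by simpa using b.2⟩
  simp only [Pc, kz, zero_mul, sub_zero, inv_one, mul_one, mul_zero, ← integral_conj, map_mul,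
    map_inv₀, map_sub, map_one, conj_conj] at h4 h5 h6 h7
  have h8 : ∀ t, (e t + z) / (e t - z) * (G (e t)).re = G (e t) * kz z t +
      conj (G (e t)) * kz z t - (G (e t) + conj (G (e t))) / 2 := fun t => by
    have h8 := kz_eq hz t
    have h9 : e t - z ≠ 0 := fun h => by
      have := e_norm t
      rw [← h8, h] at this; simp at this
    rw [re_eq_add_conj, div_mul_eq_mul_div, div_eq_iff h9]
    linear_combination (-(G (e t) + conj (G (e t)))) * h8
  simp only [h8]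
  rw [integral_sub (by exact (b.mul h3).int.add (b'.mul h3).int)
    (by exact (b.int.add b'.int).div_const _),
    integral_add (b.mul h3).int (b'.mul h3).int, integral_div, integral_add b.int b'.int]
  simp only [kz]
  rw [h4, h5, h6, h7, im_eq_sub_conj]
  field_simp; ring

noncomputable def lam (w : ℂ) : ℂ := Complex.log ((1 + w) / (1 - w)) / 2 + π / 4 * I

lemma lam_im (w : ℂ) : (lam w).im = arg ((1 + w) / (1 - w)) / 2 + π / 4 := by
  simp [lam, log_im]

lemma s_re (w : ℂ) : ((1 + w) / (1 - w)).re = (1 - ‖w‖ ^ 2) / normSq (1 - w) := by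
  rw [div_re, Complex.sq_norm, normSq_apply w]; simp; ring

lemma s_nonneg {w : ℂ} (hw : w ∈ closedBall (0 : ℂ) 1) : 0 ≤ ((1 + w) / (1 - w)).re := by
  rw [s_re]
  exact div_nonneg (sub_nonneg.2 (pow_le_one₀ (norm_nonneg _) (mem_closedBall_zero_iff.1 hw)))
    (normSq_nonneg _)

def St (x : ℂ) : Prop := 0 ≤ x.im ∧ x.im ≤ π / 2

lemma lam_st {w : ℂ} (hw : w ∈ closedBall (0 : ℂ) 1) : St (lam w) := by
  have := abs_le.1 (abs_arg_le_pi_div_two_iff.2 (s_nonneg hw))
  rw [St, lam_im]; constructor <;> linarith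

lemma s_ne {w : ℂ} (h1 : w ≠ 1) (h2 : w ≠ -1) : (1 + w) / (1 - w) ≠ 0 :=
  div_ne_zero (fun h => h2 (by linear_combination h)) (sub_ne_zero.2 h1.symm)

lemma lam_diff {w : ℂ} (hw : w ∈ closedBall (0 : ℂ) 1) (h1 : w ≠ 1) (h2 : w ≠ -1) :
    DifferentiableAt ℂ lam w := by
  have h3 := sub_ne_zero.2 h1.symm
  refine ((DifferentiableAt.clog (by fun_prop (disch := assumption)) ?_).div_const _).add_const _
  by_contra h4
  simp only [mem_slitPlane_iff, not_or, not_lt, not_not] at h4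
  exact s_ne h1 h2 (Complex.ext (h4.1.antisymm (s_nonneg hw)) h4.2)

lemma ae_ne (c : ℂ) : ∀ᵐ t ∂μ, e t ≠ c := by
  have : NullSingletonClass μ := ⟨fun x => by
    simpa [AddCircle.volume_eq_smul_haarAddCircle] using AddCircle.volume_closedBall 1 (x := x) 0⟩
  refine Set.Subsingleton.measure_zero (fun t ht s hs => ?_) μ
  simp only [Set.mem_compl_iff, Set.mem_ofPred_eq, not_not] at ht hs
  refine AddCircle.injective_toCircle one_ne_zero (Circle.ext ?_)
  simpa [e] using ht.trans hs.symm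

lemma lam_bd : ∀ᵐ t ∂μ, (lam (e t)).im = 0 ∨ (lam (e t)).im = π / 2 := by
  filter_upwards [ae_ne 1, ae_ne (-1)] with t h1 h2
  have h3 : ((1 + e t) / (1 - e t)).re = 0 := by simp [s_re, e_norm]
  rw [lam_im]
  rcases lt_trichotomy ((1 + e t) / (1 - e t)).im 0 with h | h | h
  · left; rw [arg_eq_neg_pi_div_two_iff.2 ⟨h3, h⟩]; ring
  · exact absurd (Complex.ext h3 h) (s_ne h1 h2)
  · right; rw [arg_eq_pi_div_two_iff.2 ⟨h3, h⟩]; ring

lemma lam_surj (x : ℝ) : ∃ z ∈ ball (0 : ℂ) 1, lam z = x + π / 4 * I := by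
  have h0 := Real.exp_pos (2 * x)
  refine ⟨((rexp (2 * x) - 1) / (rexp (2 * x) + 1) : ℝ), ?_, ?_⟩
  · rw [mem_ball_zero_iff, Complex.norm_real, Real.norm_eq_abs, abs_div, div_lt_one (by positivity),
      abs_of_pos (a := _ + _) (by positivity), abs_lt]
    constructor <;> linarith
  · rw [lam, ← ofReal_one, ← ofReal_add, ← ofReal_sub, ← ofReal_div,
      show (1 + (rexp (2 * x) - 1) / (rexp (2 * x) + 1)) /
        (1 - (rexp (2 * x) - 1) / (rexp (2 * x) + 1)) = rexp (2 * x) by field_simp; ring,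
      ← ofReal_log h0.le, Real.log_exp]
    push_cast; ring

lemma strip {Φ : ℂ → ℂ} {B : ℝ} (h : ∀ x, St x → DifferentiableAt ℂ Φ x ∧ ‖Φ x‖ ≤ B) :
    MP (fun w => Φ (lam w)) B := by
  have h1 : ∀ w ∈ closedBall (0 : ℂ) 1, w ≠ 1 → w ≠ -1 →
      DifferentiableAt ℂ (fun w => Φ (lam w)) w :=
    fun w hw h1 h2 => (h _ (lam_st hw)).1.comp w (lam_diff hw h1 h2)
  refine rad (fun w hw => (h1 w (ball_subset_closedBall hw) ?_ ?_).differentiableWithinAt)
    (fun w hw => (h _ (lam_st (ball_subset_closedBall hw))).2) ?_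
  · rintro rfl; simp at hw
  · rintro rfl; simp at hw
  · filter_upwards [ae_ne 1, ae_ne (-1)] with t h2 h3
    exact (h1 _ (sphere_subset_closedBall (e_mem t)) h2 h3).continuousAt

end Pool.Agent.H.MP_c4e2dd_an
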